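import Pool.Agent.Helper74.CO.Goals

/-!
Project CO (MP_c5396e_co, captain helper74), packet GBL (blank rows of the Golomb arrays).
-/

set_option autoImplicit false

namespace Pool.Agent.Helper30.CO

open Finset Pool.Agent.Helper74.CO

theorem ag_mem (hI : IND) {F : Type} [Field F] [Fintype F] {α : F} (hα : Gen α)
    (h3 : 3 ≤ Fintype.card F) {x : F} (hx : x ≠ 0) : 0 ≤ ag α x ∧ ag α x < 1 := by
  obtain ⟨-, -, h, -⟩ := hI F α hα h3
  have h1 := (h x hx).2
  have h3' : (3 : ℝ) ≤ (Fintype.card F : ℝ) := by exact_mod_cast h3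
  have h2 : (ind α x : ℝ) < (Fintype.card F : ℝ) - 1 := by exact_mod_cast h1
  constructor
  · unfold ag
    exact div_nonneg (Nat.cast_nonneg _) (by linarith)
  · unfold ag
    rw [div_lt_one (by linarith)]
    exact h2

theorem card_Xg {F : Type} [Field F] [Fintype F] [DecidableEq F] (e f : F) (he : e ≠ 0) :
    Fintype.card F ≤ #(Xg e f) + 5 := by
  have h1 : (univ : Finset F) ⊆ Xg e f ∪ {0, 1, 1 - f, e, e / (e + f)} := by
    intro x _
    rw [mem_union]
    by_cases hx : x ∈ Xg e f
    · exact Or.inl hx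
    · right
      simp only [Xg, mem_filter, mem_univ, true_and, not_and_or, not_not] at hx
      simp only [mem_insert, mem_singleton]
      rcases hx with h | h | h | h | h
      · exact Or.inl h
      · exact Or.inr (Or.inl h)
      · exact Or.inr (Or.inr (Or.inl h))
      · exact Or.inr (Or.inr (Or.inr (Or.inl h)))
      · have h0 : e + f ≠ 0 := by
          intro h0
          rw [h0, zero_mul] at h
          exact he h.symm
        right; right; right; right
        rw [eq_div_iff h0, mul_comm]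
        exact h
  have h2 := card_le_card h1
  rw [card_univ] at h2
  have h3 := card_union_le (Xg e f) {0, 1, 1 - f, e, e / (e + f)}
  have h4 : #({0, 1, 1 - f, e, e / (e + f)} : Finset F) ≤ 5 := card_le_five
  omega

theorem Mg_ne {F : Type} [Field F] [Fintype F] [DecidableEq F] {e f x : F} (he : e ≠ 0)
    (hf : f ≠ 0) (hx : x ∈ Xg e f) : Mg e f x ≠ 0 ∧ 1 - Mg e f x ≠ 0 := by
  simp only [Xg, mem_filter, mem_univ, true_and] at hx
  obtain ⟨h0, h1, h2, h3, h4⟩ := hx
  have hd : (e + f) * x - e ≠ 0 := sub_ne_zero.2 h4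
  constructor
  · unfold Mg
    exact div_ne_zero (mul_ne_zero he (sub_ne_zero.2 h2)) hd
  · have : 1 - Mg e f x = f * (x - e) / ((e + f) * x - e) := by
      unfold Mg
      rw [eq_div_iff hd, sub_mul, div_mul_cancel₀ _ hd]
      ring
    rw [this]
    exact div_ne_zero (mul_ne_zero hf (sub_ne_zero.2 h3)) hd

theorem t_GBL (hB : BUMPS) (hS : GSOL) (hGB : GB) (hGP : GP) (hGJ : GJ) (hL : GLI) (hI : IND) :
    GBL := by
  obtain ⟨K, κ, η₀, ε₀, hκ, hη, hε, -, hB1, hB2, hB3⟩ := hB
  obtain ⟨q1, hq1⟩ := hGB K κ hκ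
  obtain ⟨q2, hq2⟩ := hGP K κ hκ
  obtain ⟨q3, hq3⟩ := hGJ K κ hκ
  refine ⟨η₀ / 2, q1 + q2 + q3 + 10, by positivity, ?_⟩
  intro F _ _ α β u v hN hα hβ hu1 hu2 hv
  classical
  have h3 : 3 ≤ Fintype.card F := by omega
  have hqR : (10 : ℝ) ≤ (Fintype.card F : ℝ) := by exact_mod_cast (by omega : 10 ≤ Fintype.card F)
  have hq0 : (0 : ℝ) < (Fintype.card F : ℝ) - 1 := by linarith
  obtain ⟨hα0, hα1, -, -⟩ := hI F α hα h3
  obtain ⟨hβ0, hβ1, -, -⟩ := hI F β hβ h3
  have hf : β ^ v = 1 := by
    rw [hβ1]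
    rcases hv with rfl | rfl
    · exact dvd_zero _
    · exact dvd_refl _
  have hv' : (v : ℝ) / ((Fintype.card F : ℝ) - 1) = 0 ∨
      (v : ℝ) / ((Fintype.card F : ℝ) - 1) = 1 := by
    rcases hv with h | h
    · left
      rw [h, Int.cast_zero, zero_div]
    · right
      rw [h]
      push_cast
      exact div_self hq0.ne'
  set e : F := α ^ u with he_def
  have he0 : e ≠ 0 := zpow_ne_zero _ hα0
  have hsol := hS F α β u v h3 hα hβ (by
    rw [hf]
    intro h
    exact he0 (by linear_combination h))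
  rw [hf, ← he_def] at hsol
  have hX := card_Xg e 1 he0
  have hXR : η₀ / 2 * (Fintype.card F : ℝ) ≤ η₀ * #(Xg e 1) := by
    have h1 : (Fintype.card F : ℝ) ≤ #(Xg e 1) + 5 := by exact_mod_cast hX
    nlinarith
  have hU1 : U01 (Xg e 1) (ag α) := fun x hx => by
    simp only [Xg, mem_filter, mem_univ, true_and] at hx
    exact ag_mem hI hα h3 hx.1
  have hU2 : U01 (Xg e 1) (fun x => ag α (Mg e 1 x)) := fun x hx =>
    ag_mem hI hα h3 (Mg_ne he0 one_ne_zero hx).1
  have hU3 : U01 (Xg e 1) (cg β) := fun x hx => by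
    simp only [Xg, mem_filter, mem_univ, true_and] at hx
    exact ag_mem hI hβ h3 (sub_ne_zero.2 (Ne.symm hx.2.1))
  have hU4 : U01 (Xg e 1) (fun x => cg β (Mg e 1 x)) := fun x hx =>
    ag_mem hI hβ h3 (Mg_ne he0 one_ne_zero hx).2
  have hu1' : -(3 / 10 : ℝ) ≤ (u : ℝ) / ((Fintype.card F : ℝ) - 1) := by
    rw [le_div_iff₀ hq0]
    exact hu1
  have hu2' : (u : ℝ) / ((Fintype.card F : ℝ) - 1) ≤ 13 / 10 := by
    rw [div_le_iff₀ hq0]
    exact hu2
  refine hXR.trans (le_trans ?_ (Nat.cast_le.2 hsol))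
  by_cases he1 : e = -1
  · by_cases h11 : (-1 : F) = 1
    · -- characteristic 2
      have he : e = 1 := he1.trans h11
      have hud : ((Fintype.card F : ℤ) - 1) ∣ u := by
        rw [← hα1, ← he_def]
        exact he
      have hu' : (u : ℝ) / ((Fintype.card F : ℝ) - 1) = 0 ∨
          (u : ℝ) / ((Fintype.card F : ℝ) - 1) = 1 := by
        obtain ⟨m, hm⟩ := hud
        have hmR : (u : ℝ) = ((Fintype.card F : ℝ) - 1) * m := by
          rw [hm]
          push_cast
          ring
        have h5 : (u : ℝ) / ((Fintype.card F : ℝ) - 1) = m := by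
          rw [hmR]
          field_simp
        rw [h5] at hu1' hu2' ⊢
        have h6 : (-1 : ℝ) < m := by linarith
        have h7 : (m : ℝ) < 2 := by linarith
        have h8 : (-1 : ℤ) < m := by exact_mod_cast h6
        have h9 : m < (2 : ℤ) := by exact_mod_cast h7
        have h10 : m = 0 ∨ m = 1 := by omega
        rcases h10 with rfl | rfl
        · left
          simp
        · right
          simp
      have hE := hq3 F α β e 1 (by omega) hα hβ (by rw [he1]; ring)
      have := hB3 F (Xg e 1) (ag α) (cg β) _ _ hU1 hU3 hE hu' hv'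
      refine this.trans (Nat.cast_le.2 (card_le_card ?_))
      intro x hx
      rw [mem_filter] at hx ⊢
      have hM : Mg e 1 x = x := by
        have h2 : (1 : F) + 1 = 0 := by
          nth_rw 1 [← h11]
          ring
        unfold Mg
        rw [he, h2, sub_self, zero_mul, zero_sub, h11, sub_zero, one_mul, div_one]
      rw [hM]
      exact hx
    · -- `e = -1`
      have hE := hq2 F β e 1 (by omega) hβ he0 one_ne_zero
        (fun h => he0 (by linear_combination h)) (fun h => h11 (he1.symm.trans h.1))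
      have := hB2 F (Xg e 1) (cg β) (fun x => cg β (Mg e 1 x))
        ((v : ℝ) / ((Fintype.card F : ℝ) - 1)) hU3 hU4 hE
        (by rcases hv' with h | h <;> rw [h] <;> linarith)
        (by rcases hv' with h | h <;> rw [h] <;> linarith)
      refine this.trans (Nat.cast_le.2 (card_le_card ?_))
      intro x hx
      rw [mem_filter] at hx ⊢
      refine ⟨hx.1, ?_, hx.2⟩
      have hx0 : x ≠ 0 := by
        have := hx.1
        simp only [Xg, mem_filter, mem_univ, true_and] at this
        exact this.1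
      have hM : Mg e 1 x = -x := by
        unfold Mg
        rw [he1, sub_self, sub_zero]
        have : (-1 + 1 : F) * x - -1 = 1 := by ring
        rw [this, div_one]
        ring
      have hL' := hL F α hα h3 h11
      rw [hM, hL'.2 u he1 hu1 hu2]
      exact hL'.1 x hx0
  · -- general case
    have hE3 := hq1 F α β e (by omega) hα hβ he0 he1
    have hE2 := hq2 F β e 1 (by omega) hβ he0 one_ne_zero
      (fun h => he0 (by linear_combination h)) (fun h => he1 (h.1.trans h.2))
    exact hB1 F (Xg e 1) (ag α) (fun x => ag α (Mg e 1 x)) (cg β) (fun x => cg β (Mg e 1 x))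
      ((u : ℝ) / ((Fintype.card F : ℝ) - 1)) ((v : ℝ) / ((Fintype.card F : ℝ) - 1))
      hU1 hU2 hU3 hU4 hE3 hE2 hu1' hu2'
      (by rcases hv' with h | h <;> rw [h] <;> linarith)
      (by rcases hv' with h | h <;> rw [h] <;> linarith)

end Pool.Agent.Helper30.CO
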